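import Mathlib
import Pool.Agent.H148R3.Indep

/-!
# No free ultrafilter on `ℕ` is universal for completeness of topological vector spaces

For every free ultrafilter `U` on `ℕ` there is a topological vector space that is complete over `U`
but not countably complete.
-/

namespace Pool.Agent.Results.MP_6ca30a_an.NoUniversalUltrafilter

open Filter Topology Cardinal

/-! ### Definitions -/

/-- A free filter on `ℕ`: a proper filter that contains all cofinite sets. -/
def IsFree (F : Filter ℕ) : Prop := F.NeBot ∧ ∀ A : Set ℕ, Aᶜ.Finite → A ∈ F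

section defs

variable {X : Type*} [AddCommGroup X] [TopologicalSpace X]

/-- The sequence `x` is Cauchy over `F`: for every neighbourhood `U` of `0` there is `B ∈ F` with
`x(B) - x(B) ⊆ U`. -/
def IsCauchyOver (F : Filter ℕ) (x : ℕ → X) : Prop :=
  ∀ U ∈ 𝓝 (0 : X), ∃ B ∈ F, ∀ m ∈ B, ∀ n ∈ B, x m - x n ∈ U

/-- The sequence `x` converges to `y` over `F`. -/
def ConvergesOver (F : Filter ℕ) (x : ℕ → X) (y : X) : Prop :=
  ∀ V ∈ 𝓝 y, ∃ A ∈ F, ∀ n ∈ A, x n ∈ V

variable (X) in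
/-- `X` is complete over `F`. -/
def CompleteOver (F : Filter ℕ) : Prop :=
  ∀ x : ℕ → X, IsCauchyOver F x → ∃ y, ConvergesOver F x y

variable (X) in
/-- `X` is countably complete: complete over every free filter on `ℕ`. -/
def CountablyComplete : Prop := ∀ F : Filter ℕ, IsFree F → CompleteOver X F

end defs

/-! ### Terms -/

variable (𝕜 : Type) [RCLike 𝕜]

inductive Node : Type
  | var (n : ℕ)
  | add
  | smul (r : 𝕜)
  | lim

def arity : Node 𝕜 → Type
  | .var _ => Empty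
  | .add => Bool
  | .smul _ => Unit
  | .lim => ℕ

/-- The space of all functions on the subsets of `ℕ`. -/
abbrev Y : Type := Set ℕ → 𝕜

open Classical in
/-- The characteristic function of a set of subsets of `ℕ`. -/
noncomputable def chi (V : Set (Set ℕ)) : Y 𝕜 := fun A => if A ∈ V then 1 else 0

variable {𝕜} in
noncomputable def ev (U : Ultrafilter ℕ) : WType (arity 𝕜) → Y 𝕜
  | .mk (.var n) _ => chi 𝕜 {A | n ∈ A}
  | .mk .add t => ev U (t true) + ev U (t false)
  | .mk (.smul r) t => r • ev U (t ())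
  | .mk .lim t => fun A => limUnder (U : Filter ℕ) (fun n : ℕ => ev U (t n) A)

lemma mk_le : #𝕜 ≤ 𝔠 := by
  have h : Function.Injective (fun z : 𝕜 => ((RCLike.re z, RCLike.im z) : ℝ × ℝ)) := by
    intro z w h
    simp only [Prod.mk.injEq] at h
    exact RCLike.ext h.1 h.2
  have h1 := Cardinal.mk_le_of_injective h
  have h2 : #(ℝ × ℝ) = 𝔠 := by
    rw [Cardinal.mk_prod, Cardinal.mk_real, Cardinal.lift_continuum, Cardinal.continuum_mul_self]
  rwa [h2] at h1

omit [RCLike 𝕜] in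
lemma node_le (h : #𝕜 ≤ 𝔠) : #(Node 𝕜) ≤ 𝔠 := by
  have h1 : Function.Injective (fun a : Node 𝕜 => (match a with
    | .var n => Sum.inl (Sum.inl n)
    | .add => Sum.inr true
    | .smul r => Sum.inl (Sum.inr r)
    | .lim => Sum.inr false : (ℕ ⊕ 𝕜) ⊕ Bool)) := by
    intro a b hab
    cases a <;> cases b <;> simp_all
  refine (Cardinal.mk_le_of_injective h1).trans ?_
  rw [Cardinal.mk_sum, Cardinal.mk_sum]
  simp only [Cardinal.lift_id, Cardinal.mk_nat, Cardinal.mk_bool]
  refine Cardinal.add_le_of_le Cardinal.aleph0_le_continuum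
    (Cardinal.add_le_of_le Cardinal.aleph0_le_continuum Cardinal.aleph0_le_continuum h) ?_
  exact (Cardinal.nat_lt_continuum 2).le

lemma w_le : #(WType (arity 𝕜)) ≤ 𝔠 := by
  apply WType.cardinalMk_le_of_le
  have h1 : ∀ a : Node 𝕜, (𝔠 : Cardinal.{0}) ^ #(arity 𝕜 a) ≤ 𝔠 := by
    intro a
    have h2 : #(arity 𝕜 a) ≤ ℵ₀ := by
      cases a
      · simp [arity]
      · simp [arity]
      · simp [arity]
      · simp [arity]
    calc (𝔠 : Cardinal.{0}) ^ #(arity 𝕜 a) ≤ 𝔠 ^ ℵ₀ :=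
          Cardinal.power_le_power_left Cardinal.continuum_ne_zero h2
      _ = 𝔠 := Cardinal.continuum_power_aleph0
  calc (Cardinal.sum fun a : Node 𝕜 => (𝔠 : Cardinal.{0}) ^ #(arity 𝕜 a))
      ≤ Cardinal.sum fun _ : Node 𝕜 => (𝔠 : Cardinal.{0}) := Cardinal.sum_le_sum _ _ h1
    _ = #(Node 𝕜) * 𝔠 := by simp
    _ ≤ 𝔠 * 𝔠 := by gcongr; exact node_le 𝕜 (mk_le 𝕜)
    _ = 𝔠 := Cardinal.continuum_mul_self

/-- The smallest subspace that contains the coordinate sequence and is closed under limits over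
`U`. -/
noncomputable def Xsub (U : Ultrafilter ℕ) : Submodule 𝕜 (Y 𝕜) where
  carrier := Set.range (ev (𝕜 := 𝕜) U)
  zero_mem' := ⟨WType.mk (.smul 0) (fun _ => WType.mk (.var 0) Empty.elim), by
    simp [ev]⟩
  add_mem' := by
    rintro _ _ ⟨s, rfl⟩ ⟨t, rfl⟩
    exact ⟨WType.mk .add (fun b : Bool => if b then s else t), by simp [ev]⟩
  smul_mem' := by
    rintro r _ ⟨s, rfl⟩
    exact ⟨WType.mk (.smul r) (fun _ => s), by simp [ev]⟩

lemma complete_over (U : Ultrafilter ℕ) : CompleteOver (Xsub 𝕜 U) (U : Filter ℕ) := by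
  intro x hx
  choose t ht using fun n => (x n).2
  have hcoord : ∀ A : Set ℕ, ∃ y : 𝕜, Tendsto (fun n => (x n : Y 𝕜) A) U (𝓝 y) := by
    intro A
    have hc : Cauchy (Filter.map (fun n => (x n : Y 𝕜) A) (U : Filter ℕ)) := by
      rw [Metric.cauchy_iff]
      refine ⟨inferInstance, ?_⟩
      intro ε hε
      have hV : {f : Xsub 𝕜 U | ‖(f : Y 𝕜) A‖ < ε} ∈ 𝓝 (0 : Xsub 𝕜 U) := by
        have hcont : Continuous fun f : Xsub 𝕜 U => ‖(f : Y 𝕜) A‖ :=
          ((continuous_apply A).comp continuous_subtype_val).norm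
        have hopen : IsOpen {f : Xsub 𝕜 U | ‖(f : Y 𝕜) A‖ < ε} :=
          isOpen_lt hcont continuous_const
        exact hopen.mem_nhds (by simpa using hε)
      obtain ⟨B, hB, hB'⟩ := hx _ hV
      refine ⟨(fun n => (x n : Y 𝕜) A) '' B, Filter.image_mem_map hB, ?_⟩
      rintro _ ⟨m, hm, rfl⟩ _ ⟨n, hn, rfl⟩
      have := hB' m hm n hn
      rw [dist_eq_norm]
      exact this
    exact CompleteSpace.complete hc
  choose y hy using hcoord
  have hyX : (fun A => y A : Y 𝕜) ∈ Xsub 𝕜 U := by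
    refine ⟨WType.mk .lim t, ?_⟩
    funext A
    simp only [ev]
    have h1 : (fun n => ev U (t n) A) = fun n => (x n : Y 𝕜) A := by
      funext n
      rw [ht n]
    rw [h1]
    exact (hy A).limUnder_eq
  refine ⟨⟨y, hyX⟩, ?_⟩
  have hlim : Tendsto x U (𝓝 ⟨y, hyX⟩) := by
    rw [tendsto_subtype_rng]
    exact tendsto_pi_nhds.mpr hy
  intro V hV
  exact ⟨x ⁻¹' V, hlim hV, fun n hn => hn⟩

/-- The coordinate sequence. -/
noncomputable def delta (U : Ultrafilter ℕ) (n : ℕ) : Xsub 𝕜 U :=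
  ⟨chi 𝕜 {A | n ∈ A}, ⟨WType.mk (.var n) Empty.elim, by simp [ev]⟩⟩

lemma delta_tendsto (V : Ultrafilter ℕ) :
    Tendsto (fun n : ℕ => chi 𝕜 {A | n ∈ A}) (V : Filter ℕ) (𝓝 (chi 𝕜 {A | A ∈ V})) := by
  rw [tendsto_pi_nhds]
  intro A
  by_cases hA : A ∈ V
  · refine tendsto_nhds_of_eventually_eq ?_
    have : ∀ᶠ n in (V : Filter ℕ), n ∈ A := hA
    filter_upwards [this] with n hn
    simp [chi, hn, hA]
  · refine tendsto_nhds_of_eventually_eq ?_
    have : ∀ᶠ n in (V : Filter ℕ), n ∈ Aᶜ := Ultrafilter.compl_mem_iff_notMem.mpr hA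
    filter_upwards [this] with n hn
    have hn' : n ∉ A := hn
    simp [chi, hn', hA]

lemma delta_cauchy (U V : Ultrafilter ℕ) : IsCauchyOver (V : Filter ℕ) (delta 𝕜 U) := by
  intro N hN
  rw [nhds_subtype_eq_comap] at hN
  obtain ⟨M, hM, hMN⟩ := hN
  have h1 := delta_tendsto 𝕜 V
  have h2 : Tendsto (fun p : ℕ × ℕ => chi 𝕜 {A | p.1 ∈ A} - chi 𝕜 {A | p.2 ∈ A})
      ((V : Filter ℕ) ×ˢ (V : Filter ℕ)) (𝓝 0) := by
    have h3 := (h1.comp (tendsto_fst (f := (V : Filter ℕ)) (g := (V : Filter ℕ)))).sub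
      (h1.comp (tendsto_snd (f := (V : Filter ℕ)) (g := (V : Filter ℕ))))
    rw [sub_self] at h3
    exact h3
  have h4 := h2 hM
  rw [Filter.mem_map, Filter.mem_prod_same_iff] at h4
  obtain ⟨B, hB, hB'⟩ := h4
  refine ⟨B, hB, ?_⟩
  intro m hm n hn
  apply hMN
  exact hB' (Set.mk_mem_prod hm hn)

lemma chi_mem (U : Ultrafilter ℕ) (h : CountablyComplete (Xsub 𝕜 U)) (V : Ultrafilter ℕ) :
    chi 𝕜 {A | A ∈ V} ∈ Xsub 𝕜 U := by
  rcases V.le_cofinite_or_eq_pure with hV | ⟨n, hn⟩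
  · have hfree : IsFree (V : Filter ℕ) := by
      refine ⟨V.neBot, fun A hA => hV ?_⟩
      exact Filter.mem_cofinite.mpr hA
    obtain ⟨y, hy⟩ := h (V : Filter ℕ) hfree (delta 𝕜 U) (delta_cauchy 𝕜 U V)
    have hlim : Tendsto (delta 𝕜 U) (V : Filter ℕ) (𝓝 y) := by
      intro W hW
      obtain ⟨A, hA, hA'⟩ := hy W hW
      rw [Filter.mem_map]
      exact Filter.mem_of_superset hA (fun n hn => hA' n hn)
    have hlim2 : Tendsto (fun n : ℕ => chi 𝕜 {A | n ∈ A}) (V : Filter ℕ) (𝓝 (y : Y 𝕜)) :=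
      (continuous_subtype_val.tendsto y).comp hlim
    have := tendsto_nhds_unique hlim2 (delta_tendsto 𝕜 V)
    rw [← this]
    exact y.2
  · subst hn
    have : {A : Set ℕ | A ∈ (pure n : Ultrafilter ℕ)} = {A | n ∈ A} := by
      ext A; simp
    rw [this]
    exact (delta 𝕜 U n).2

lemma not_countably_complete (U : Ultrafilter ℕ) : ¬ CountablyComplete (Xsub 𝕜 U) := by
  intro h
  have hmem := chi_mem 𝕜 U h
  choose t ht using fun E : Set (Set ℕ) => hmem (H148R3.uE E)
  have hinj : Function.Injective t := by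
    intro E F hEF
    apply H148R3.uE_inj
    have h1 : chi 𝕜 {A | A ∈ H148R3.uE E} = chi 𝕜 {A | A ∈ H148R3.uE F} := by
      rw [← ht E, ← ht F, hEF]
    apply Ultrafilter.ext
    intro A
    have h2 := congrFun h1 A
    simp only [chi, Set.mem_ofPred_eq] at h2
    constructor
    · intro hE
      by_contra hF
      simp [hE, hF] at h2
    · intro hF
      by_contra hE
      simp [hE, hF] at h2
  have h1 := Cardinal.mk_le_of_injective hinj
  have h2 := h1.trans (w_le 𝕜)
  have h3 : #(Set (Set ℕ)) = 2 ^ 𝔠 := by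
    rw [Cardinal.mk_set, Cardinal.mk_set, Cardinal.mk_nat, Cardinal.two_power_aleph0]
  rw [h3] at h2
  exact absurd h2 (not_le.mpr (Cardinal.cantor 𝔠))

/-! ### The result -/

/-- For every free ultrafilter `U` on `ℕ` and `𝕜 = ℝ` or `ℂ` there is a Hausdorff topological
vector space over `𝕜` that is complete over `U` but not countably complete. So no free ultrafilter
on `ℕ` is universal. -/
theorem result (U : Ultrafilter ℕ) (_hU : IsFree (U : Filter ℕ)) :
    ∃ (X : Type) (_ : AddCommGroup X) (_ : Module 𝕜 X) (_ : TopologicalSpace X),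
      IsTopologicalAddGroup X ∧ ContinuousSMul 𝕜 X ∧ T2Space X ∧
      CompleteOver X (U : Filter ℕ) ∧ ¬ CountablyComplete X :=
  ⟨Xsub 𝕜 U, inferInstance, inferInstance, inferInstance, inferInstance, inferInstance,
    inferInstance, complete_over 𝕜 U, not_countably_complete 𝕜 U⟩

end Pool.Agent.Results.MP_6ca30a_an.NoUniversalUltrafilter
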